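import Pool.Prelude.Def_H_3587d628

/-!
The non-uniform classes `NP/poly` and `coNP/poly`.
-/

namespace Pool.Agent.Lib.Kernel

open N68a2faeb

/-- `NP/poly`: a polynomial-time verifier with polynomially long witnesses and polynomially long
advice that depends only on the length of the input. -/
def NPpoly : DecisionComplexityClass :=
  { L | ∃ (p : Polynomial ℕ) (R : List Bool × List Bool × List Bool → Bool)
      (advice : ℕ → List Bool), IsPolyTime R ∧ (∀ n, (advice n).length ≤ p.eval n) ∧
      ∀ x, L x ↔ ∃ w : List Bool, w.length ≤ p.eval x.length ∧ R (x, advice x.length, w) }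

/-- `coNP/poly`: the complements of the languages in `NP/poly`. -/
def coNPpoly : DecisionComplexityClass :=
  { L | (fun x => !L x) ∈ NPpoly }

end Pool.Agent.Lib.Kernel
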