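import Pool.Agent.Lib.Kernel.Defs
import Pool.Agent.Lib.Cx.All

/-!
The Fortnow-Santhanam theorem: an OR-distillation puts a language into `coNP/poly`.
-/

namespace Pool.Agent.Lib.Kernel

open N68a2faeb Pool.Agent.Lib.Cx Finset

theorem cover {α β : Type} [DecidableEq α] [DecidableEq β] (t : ℕ) (ht : 1 ≤ t) (A : Finset α)
    (B : Finset β) (hB : B.card ≤ 2 ^ t) (g : (Fin t → α) → β)
    (hg : ∀ u, (∀ i, u i ∈ A) → g u ∈ B) (m : ℕ) :
    ∀ U ⊆ A, U.card < 2 ^ m → ∃ S : List β, S.length ≤ m ∧ (∀ y ∈ S, y ∈ B) ∧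
      ∀ x ∈ U, ∃ u : Fin t → α, (∀ i, u i ∈ A) ∧ (∃ i, u i = x) ∧ g u ∈ S := by
  classical
  induction m with
  | zero =>
    intro U _ hU
    have : U = ∅ := by simpa using hU
    subst this
    exact ⟨[], le_rfl, by simp, by simp⟩
  | succ m ih =>
    intro U hUA hU
    rcases U.eq_empty_or_nonempty with rfl | ⟨x0, hx0⟩
    · exact ⟨[], by simp, by simp, by simp⟩
    set P := Fintype.piFinset (fun _ : Fin t => U) with hP
    have hmaps : ∀ u ∈ P, g u ∈ B := fun u hu =>
      hg u fun i => hUA (Fintype.mem_piFinset.1 hu i)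
    have hBne : B.Nonempty := ⟨_, hmaps (fun _ => x0) (Fintype.mem_piFinset.2 fun _ => hx0)⟩
    obtain ⟨y, hy, hmax⟩ := B.exists_max_image (fun y => (P.filter (fun u => g u = y)).card) hBne
    set C := U.filter (fun x => ∃ u ∈ P, g u = y ∧ ∃ i, u i = x) with hC
    have h1 : P.card ≤ 2 ^ t * (P.filter (fun u => g u = y)).card := by
      rw [card_eq_sum_card_fiberwise (f := g) (t := B) (fun u hu => hmaps u hu)]
      refine (sum_le_card_nsmul _ _ _ hmax).trans ?_
      rw [smul_eq_mul]
      gcongr
    have h2 : (P.filter (fun u => g u = y)).card ≤ C.card ^ t := by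
      have : P.filter (fun u => g u = y) ⊆ Fintype.piFinset (fun _ : Fin t => C) := by
        intro u hu
        rw [mem_filter] at hu
        exact Fintype.mem_piFinset.2 fun i =>
          mem_filter.2 ⟨Fintype.mem_piFinset.1 hu.1 i, u, hu.1, hu.2, i, rfl⟩
      simpa using card_le_card this
    have h3 : U.card ^ t ≤ (2 * C.card) ^ t := by
      have : P.card = U.card ^ t := by simp [hP]
      rw [mul_pow, ← this]
      exact h1.trans (by gcongr)
    have h4 : U.card ≤ 2 * C.card := (Nat.pow_le_pow_iff_left (by omega)).1 h3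
    have h5 : (U \ C).card < 2 ^ m := by
      rw [card_sdiff_of_subset (show C ⊆ U from filter_subset _ _)]
      rw [pow_succ] at hU
      omega
    obtain ⟨S, s1, s2, s3⟩ := ih (U \ C) (sdiff_subset.trans hUA) h5
    refine ⟨y :: S, by simpa using s1, ?_, fun x hx => ?_⟩
    · intro z hz
      rcases List.mem_cons.1 hz with rfl | hz
      · exact hy
      · exact s2 z hz
    · by_cases hxC : x ∈ C
      · obtain ⟨-, u, hu, hu', hi⟩ := mem_filter.1 hxC
        exact ⟨u, fun i => hUA (Fintype.mem_piFinset.1 hu i), hi, by simp [hu']⟩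
      · obtain ⟨u, a, b, c⟩ := s3 x (mem_sdiff.2 ⟨hx, hxC⟩)
        exact ⟨u, a, b, List.mem_cons_of_mem _ c⟩

/-- The words of length `l`. -/
def words (l : ℕ) : Finset (List Bool) := univ.image (List.ofFn : (Fin l → Bool) → List Bool)

theorem mem_words {l : ℕ} {x : List Bool} : x ∈ words l ↔ x.length = l := by
  simp only [words, mem_image, mem_univ, true_and]
  constructor
  · rintro ⟨u, rfl⟩
    simp
  · rintro rfl
    exact ⟨x.get, List.ofFn_get x⟩

theorem card_words (l : ℕ) : (words l).card ≤ 2 ^ l := by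
  simpa [words] using card_image_le (s := univ) (f := (List.ofFn : (Fin l → Bool) → List Bool))

theorem card_short_words (t : ℕ) : ((range t).biUnion words).card ≤ 2 ^ t := by
  refine card_biUnion_le.trans ((sum_le_sum fun l _ => card_words l).trans ?_)
  rw [Nat.geomSum_eq le_rfl]
  simp

/-- Fortnow-Santhanam: if a polynomial-time map `F` sends lists of at least `t₀` words of a common
length `n` to words of length at most `q n`, and `Y (F xs)` holds exactly when some word of the list
is in `L`, then `L` is in `coNP/poly`. -/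
theorem fortnow_santhanam (L : DecisionProblem) (Y : List Bool → Prop)
    (F : List (List Bool) → List Bool) (hF : PT F) (q : Polynomial ℕ) (t₀ : ℕ)
    (h : ∀ n xs, (∀ x ∈ xs, x.length = n) → t₀ < xs.length →
      (F xs).length ≤ q.eval n ∧ (Y (F xs) ↔ ∃ x ∈ xs, L x = true)) : L ∈ coNPpoly := by
  classical
  obtain ⟨d, hd, e⟩ := (inferInstance : Dec (List (List Bool))).dec
  have key : ∀ n, ∃ S : List (List Bool), S.length ≤ n + 1 ∧
      (∀ y ∈ S, y.length ≤ q.eval n + t₀ ∧ ¬ Y y) ∧
      ∀ x : List Bool, x.length = n → L x = false → ∃ xs : List (List Bool),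
        xs.length = q.eval n + t₀ + 1 ∧ (∀ z ∈ xs, z.length = n) ∧ x ∈ xs ∧ F xs ∈ S := by
    intro n
    set t := q.eval n + t₀ + 1 with ht
    set A := (words n).filter (fun x => L x = false) with hA
    set B := ((range t).biUnion words).filter (fun y => ¬ Y y) with hB
    have hA' : A.card < 2 ^ (n + 1) := by
      have : A.card ≤ 2 ^ n := (card_filter_le _ _).trans (card_words n)
      have : 0 < 2 ^ n := by positivity
      rw [pow_succ]
      omega
    obtain ⟨S, s1, s2, s3⟩ := cover t (by omega) A B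
      ((card_filter_le _ _).trans (card_short_words t)) (fun u => F (List.ofFn u)) (by
        intro u hu
        have h1 := h n (List.ofFn u) (by
          intro x hx
          obtain ⟨i, rfl⟩ := (List.mem_ofFn' _ _).1 hx
          exact mem_words.1 (mem_filter.1 (hu i)).1) (by rw [List.length_ofFn]; omega)
        refine mem_filter.2 ⟨mem_biUnion.2 ⟨_, mem_range.2 ?_, mem_words.2 rfl⟩, fun hY => ?_⟩
        · omega
        · obtain ⟨x, hx, hL⟩ := h1.2.1 hY
          obtain ⟨i, rfl⟩ := (List.mem_ofFn' _ _).1 hx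
          have := (mem_filter.1 (hu i)).2
          simp [this] at hL) (n + 1) A subset_rfl hA'
    refine ⟨S, s1, fun y hy => ?_, fun x hx hL => ?_⟩
    · obtain ⟨a, b⟩ := mem_filter.1 (s2 y hy)
      obtain ⟨l, hl, hl'⟩ := mem_biUnion.1 a
      rw [mem_words] at hl'
      rw [mem_range] at hl
      exact ⟨by omega, b⟩
    · obtain ⟨u, a, ⟨i, b⟩, c⟩ := s3 x (mem_filter.2 ⟨mem_words.2 hx, hL⟩)
      refine ⟨List.ofFn u, List.length_ofFn, fun z hz => ?_, (List.mem_ofFn' _ _).2 ⟨i, b⟩, c⟩
      obtain ⟨j, rfl⟩ := (List.mem_ofFn' _ _).1 hz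
      exact mem_words.1 (mem_filter.1 (a j)).1
  choose S s1 s2 s3 using key
  have hR : PT (fun z : List Bool × List Bool × List Bool =>
      (d z.2.1).elim false (fun T => (d z.2.2).elim false (fun xs =>
        decide (z.1 ∈ xs ∧ (∀ y ∈ xs, y.length = z.1.length) ∧ t₀ < xs.length ∧ F xs ∈ T)))) := by
    fun_prop
  refine ⟨(Polynomial.X + 1) * (6 * (q + Polynomial.C t₀) + 1) +
    (q + Polynomial.C t₀ + 1) * (6 * Polynomial.X + 1), _, fun n => enc (S n), hR.isPolyTime,
    fun n => ?_, fun x => ?_⟩
  · have := size_list_le (S n) (3 * (q.eval n + t₀)) (fun y hy => by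
      rw [size_listBool]
      have := (s2 n y hy).1
      omega)
    simp only [Polynomial.eval_add, Polynomial.eval_mul, Polynomial.eval_X, Polynomial.eval_one,
      Polynomial.eval_ofNat, Polynomial.eval_C]
    refine le_trans ?_ (Nat.le_add_right _ _)
    refine this.trans ?_
    exact Nat.mul_le_mul (s1 n) (by omega)
  · simp only [e, Option.elim, Bool.not_eq_true']
    constructor
    · intro hL
      obtain ⟨xs, a, b, c, c'⟩ := s3 _ x rfl hL
      refine ⟨enc xs, ?_, ?_⟩
      · have := size_list_le xs (3 * x.length) (fun y hy => by rw [size_listBool, b y hy])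
        simp only [Polynomial.eval_add, Polynomial.eval_mul, Polynomial.eval_X, Polynomial.eval_one,
          Polynomial.eval_ofNat, Polynomial.eval_C]
        refine le_trans ?_ (Nat.le_add_left _ _)
        refine this.trans (le_of_eq ?_)
        rw [a]
        ring
      · simp only [e, decide_eq_true_eq]
        exact ⟨c, b, by omega, c'⟩
    · rintro ⟨w, -, hw⟩
      revert hw
      cases d w with
      | none => simp
      | some xs =>
        simp only [decide_eq_true_eq]
        rintro ⟨a, b, c, c'⟩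
        by_contra hL
        exact (s2 _ _ c').2 ((h _ xs b c).2.2 ⟨x, a, by simpa using hL⟩)

end Pool.Agent.Lib.Kernel
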